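import Pool.Agent.W5h14.TW.Sub
import Pool.Agent.W5h14.TV.EvenCrit

/-!
# The criterion for even type
-/

set_option autoImplicit false

namespace Pool.Agent.W5h14.TW

open Finset Classical
open Pool.Agent.W5h14.TV
open Pool.Agent.W907.SG Pool.Agent.W907.SM Pool.Agent.W5h83.FS
open Pool.Agent.TH652.Above (HSph lv_set lv_univ singer_of_above)

/-- the criterion for even type -/
theorem redT_even_crit {V : Type} [Fintype V] [LinearOrder V] {G : SimpleGraph V} {m : ℕ} (U : Finset V)
    (h1 : ∀ x, x ∉ U → GoodVertex (2 * m + 2) G x)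
    (h2 : ∀ T : Finset V, T ⊆ U → G.IsClique (T : Set V) → T.card ≤ m + 2)
    (h3 : (cliques G (m + 2) U).card < 2 ^ (m + 2)) (b : Bool) :
    RedT b (2 * m + 2) G Finset.univ := by
  have e1 : ∀ x, nb G univ x = lkF G {x} := by
    intro x
    have h1 := nb_lkF (G := G) (∅ : Finset V) x
    rw [lkF_empty] at h1
    rw [h1]
    refine congrArg (lkF G) ?_
    ext y
    simp only [mem_insert, notMem_empty, or_false, mem_singleton]
  refine RedT.even b m G univ U h2 h3 fun x _ hxU => ?_
  rw [e1]
  rcases h1 x hxU with h1 | h1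
  · exact RedT.few _ _ _ _ (by omega)
  · exact redT_of_red (red_of_crit_rel h1 (2 * m + 1) {x} true (mem_singleton_self x) (by simp) (by
      rw [card_singleton]
      omega))

end Pool.Agent.W5h14.TW
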