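import Pool.Agent.W5h14.TW.Def

/-!
# The class of flag spheres of odd dimension for the Charney-Davis inequality
-/

set_option autoImplicit false

namespace Pool.Agent.W5h14.TW

open Finset Classical
open Pool.Agent.W5h14.TV
open Pool.Agent.W5h83.FS
open Pool.Agent.R781.VS (con)

/-- Flag spheres of dimension `2 m - 1`. `S` is the set of vertices of the sphere (the full subcomplex on `S` of the
flag complex of `G`). -/
inductive CDT {V : Type} [Fintype V] [LinearOrder V] : ℕ → SimpleGraph V → Finset V → Prop
  /-- reducible flag spheres -/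
  | base (m : ℕ) (G : SimpleGraph V) (S : Finset V) : RedT true (2 * m) G S → CDT m G S
  /-- vertex splitting: an edge `st` in no induced 4-cycle, with link and contraction in the class -/
  | split (m : ℕ) (G : SimpleGraph V) (S : Finset V) (s t : V) : s ∈ S → t ∈ S → G.Adj s t → NoSqF G S s t →
      CDT m G (nb G (nb G S s) t) → CDT (m + 1) (con G s t) (S.erase t) → CDT (m + 1) G S
  /-- connected sum: the sphere on `A ∪ B` is cut by the full subcomplex on `A ∩ B`, which is a homology sphere of
  dimension one less, and the two spheres which arise if one of the parts is replaced by a cone are in the class -/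
  | sum (m : ℕ) (G : SimpleGraph V) (A B : Finset V) (p q : V) : p ∈ B → p ∉ A → q ∈ A → q ∉ B →
      (∀ x ∈ A, x ∉ B → ∀ y ∈ B, y ∉ A → ¬ G.Adj x y) → HS G (2 * m + 1) (A ∩ B) →
      CDT (m + 1) (coneAt G (A ∩ B) p) (insert p A) → CDT (m + 1) (coneAt G (A ∩ B) q) (insert q B) →
      CDT (m + 1) G (A ∪ B)

end Pool.Agent.W5h14.TW
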