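import Pool.Agent.W5h14.TW.LV
import Pool.Agent.W5h14.TV.RedMain

/-!
# Reducible flag spheres, with connected sums: summary
-/

set_option autoImplicit false

namespace Pool.Agent.W5h14.TW

open Finset Classical
open Pool.Agent.W5h14.TV
open Pool.Agent.W907.SG Pool.Agent.W907.SM Pool.Agent.W5h83.FS
open Pool.Agent.TH652.Above (HSph lv_set lv_univ singer_of_above)
open Pool.Agent.R781.VS (con)

/-- the sphere -/
theorem redT_sphere {b : Bool} {n : ℕ} {V : Type} [Fintype V] [LinearOrder V] {G : SimpleGraph V} (hS : HSph n G)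
    (hR : RedT b n G Finset.univ) (i : ℕ) (hi : n < 2 * i) : LV G i := by
  have h1 := lv_redT hR (HS.of_hsph hS) _ (Finset.Subset.refl _) (fun _ => rfl) i (by omega)
  exact (lv_univ G i).1 (lv_set (by rw [Finset.coe_univ]) h1)

/-- the full subcomplexes -/
theorem redT_full {n : ℕ} {V : Type} [Fintype V] [LinearOrder V] {G : SimpleGraph V} (hS : HSph n G)
    (hR : RedT true n G Finset.univ) (A : Set V) (i : ℕ) (hi : n < 2 * i) : LV (G.induce A) i := by
  have hf : Fintype ↥A := Fintype.ofFinite _
  have h1 := lv_redT hR (HS.of_hsph hS) A.toFinset (Finset.subset_univ _) (by simp) i (by omega)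
  exact lv_set (by rw [Set.coe_toFinset]) h1

theorem cliques_eq_empty {V : Type} {G : SimpleGraph V} {k : ℕ} {U : Finset V}
    (h : ∀ T : Finset V, T ⊆ U → G.IsClique (T : Set V) → T.card < k) : cliques G k U = ∅ := by
  rw [eq_empty_iff_forall_notMem]
  intro T hT
  obtain ⟨h1, h2⟩ := mem_filter.1 hT
  obtain ⟨h3, h4⟩ := mem_powersetCard.1 h1
  have := h T h3 h2
  omega

/-- the even rule without cliques with `m + 2` elements -/
theorem redT_even {V : Type} [Fintype V] [LinearOrder V] {b : Bool} {m : ℕ} {G : SimpleGraph V} {S U : Finset V}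
    (hU : ∀ T : Finset V, T ⊆ U → G.IsClique (T : Set V) → T.card ≤ m + 1)
    (h : ∀ x ∈ S, x ∉ U → RedT true (2 * m + 1) G (nb G S x)) : RedT b (2 * m + 2) G S := by
  refine RedT.even b m G S U (fun T hT hc => (hU T hT hc).trans (by omega)) ?_ h
  rw [cliques_eq_empty fun T hT hc => Nat.lt_succ_of_le (hU T hT hc), card_empty]
  positivity

theorem redT_of_red {V : Type} [Fintype V] [LinearOrder V] {b : Bool} {n : ℕ} {G : SimpleGraph V} {S : Finset V}
    (h : Red b n G S) : RedT b n G S := by
  induction h with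
  | low b n G S hn => exact RedT.low b n G S hn
  | few b n G S hc => exact RedT.few b n G S hc
  | even b m G S _ ih =>
    refine redT_even (U := ∅) (fun T hT _ => ?_) fun x hx _ => ih x hx
    rw [subset_empty.1 hT, card_empty]
    omega
  | tree m G S v hv hT _ ih => exact RedT.tree m G S v hv hT ih
  | split m G S s t hs ht hst hq _ _ ih1 ih2 =>
    refine RedT.split m G S s t hs ht hst hq ih1 ((congrArg (RedT false (2 * m + 3) (con G s t)) ?_).mp ih2)
    ext x
    simp only [mem_erase]
  | full m G S _ _ ih1 ih2 => exact RedT.full m G S ih1 ih2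

end Pool.Agent.W5h14.TW
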