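import Pool.Agent.W5h14.TW.CDDef
import Pool.Agent.W5h14.TV.LamInd
import Pool.Agent.W5h14.TW.Main

/-!
# The Charney-Davis inequality
-/

set_option autoImplicit false

namespace Pool.Agent.W5h14.TW

open Finset Classical
open Pool.Agent.W5h14.TV
open Pool.Agent.W907.SG Pool.Agent.W907.SM Pool.Agent.W5h83.FS
open Pool.Agent.TH652.Above (HSph lv_set lv_univ singer_of_above chi_sign)
open Pool.Agent.R781.VS (con)

variable {V : Type} [Fintype V] [LinearOrder V] {G : SimpleGraph V}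

/-- **The Charney-Davis inequality.** -/
theorem cdt_main {m : ℕ} {S : Finset V} (h : CDT m G S) : HS G (2 * m) S → 0 ≤ (-1 : ℚ) ^ m * lamF G S := by
  induction h with
  | base m G S hR =>
    intro hS
    have h1 : ∀ i, 2 * m < 2 * i → LV (G.induce (S : Set V)) i := fun i hi =>
      lv_redT hR hS S (Subset.refl _) (fun _ => rfl) i (by omega)
    have h2 := chi_sign (G.induce (S : Set V)) (m := m) fun i hi =>
      singer_of_above hS.hsph (fun j hj => h1 j hj _ _) i (by omega)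
    rwa [chi_induce] at h2
  | split m G S s t hs ht hst hq _ _ ih1 ih2 =>
    intro hS
    have e : 2 * (m + 1) = 2 * m + 2 := by ring
    rw [e] at hS
    have h1 : HS G (2 * m + 1) (nb G S s) := hS.2 s hs
    have h2 : HS G (2 * m) (nb G (nb G S s) t) := h1.2 t (mem_nb.2 ⟨ht, hst⟩)
    have h3 : HS (con G s t) (2 * (m + 1)) (S.erase t) := by
      rw [e]
      refine (congrArg (HS (con G s t) (2 * m + 2)) ?_).mp (HS.con _ S s t hS hs ht hst hq)
      ext x
      simp only [mem_erase]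
    have h4 := ih1 h2
    have h5 := ih2 h3
    rw [lamF_con' hs ht hst hq]
    have e2 : ∀ a b : ℚ, (-1 : ℚ) ^ (m + 1) * (a - 1 / 4 * b) =
        (-1 : ℚ) ^ (m + 1) * a + 1 / 4 * ((-1 : ℚ) ^ m * b) := by
      intro a b
      rw [pow_succ]; ring
    rw [e2]
    exact add_nonneg h5 (mul_nonneg (by norm_num) h4)
  | sum m G A B p q hpB hpA hqA hqB hno hE _ _ ih1 ih2 =>
    intro hS
    have e : 2 * (m + 1) = 2 * m + 1 + 1 := by ring
    rw [e] at hS ih1 ih2
    have hno' : ∀ x ∈ B, x ∉ A → ∀ y ∈ A, y ∉ B → ¬ G.Adj x y := fun x hx hx' y hy hy' hxy =>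
      hno y hy hy' x hx hx' hxy.symm
    have hc1 : HS (coneAt G (A ∩ B) p) (2 * m + 1 + 1) (insert p A) :=
      HS.cone _ A B p hS hno hE ⟨q, hqA, hqB⟩ ⟨p, hpB, hpA⟩ hpA
    have hc2 : HS (coneAt G (A ∩ B) q) (2 * m + 1 + 1) (insert q B) := by
      have h1 := HS.cone (G := G) (2 * m + 1) B A q (by rw [union_comm]; exact hS) hno' (by rw [inter_comm]; exact hE)
        ⟨p, hpB, hpA⟩ ⟨q, hqA, hqB⟩ hqB
      rwa [inter_comm] at h1
    have h1 := ih1 hc1
    have h2 := ih2 hc2
    rw [lamF_cone hpA inter_subset_left] at h1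
    rw [lamF_cone hqB inter_subset_right] at h2
    rw [lamF_union' hno]
    have e2 : ∀ a b c : ℚ, (-1 : ℚ) ^ (m + 1) * (a + b - c) =
        (-1 : ℚ) ^ (m + 1) * (a - 1 / 2 * c) + (-1 : ℚ) ^ (m + 1) * (b - 1 / 2 * c) := by
      intro a b c
      ring
    rw [e2]
    exact add_nonneg h1 h2

end Pool.Agent.W5h14.TW
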