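import Pool.Agent.W5h14.TV.CDDef

/-!
# Reducible flag spheres, with connected sums
-/

set_option autoImplicit false

namespace Pool.Agent.W5h14.TW

open Finset Classical
open Pool.Agent.W5h14.TV
open Pool.Agent.W5h83.FS
open Pool.Agent.R781.VS (con)

/-- the set of the cliques with `k` elements in `A` -/
noncomputable def cliques {V : Type} (G : SimpleGraph V) (k : ℕ) (A : Finset V) : Finset (Finset V) :=
  (A.powersetCard k).filter fun T => G.IsClique (T : Set V)

/-- Reducible flag spheres, with connected sums. `S` is the set of vertices of a flag sphere of dimension `n - 1` (the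
full subcomplex on `S` of the flag complex of the graph `G`). If `b` is `true`, the condition also controls the full
subcomplexes of the sphere. -/
inductive RedT {V : Type} [Fintype V] [LinearOrder V] : Bool → ℕ → SimpleGraph V → Finset V → Prop
  /-- low dimension -/
  | low (b : Bool) (n : ℕ) (G : SimpleGraph V) (S : Finset V) : n ≤ 4 → RedT b n G S
  /-- few vertices -/
  | few (b : Bool) (n : ℕ) (G : SimpleGraph V) (S : Finset V) : 2 * S.card ≤ 5 * n + 2 → RedT b n G S
  /-- even type: a condition on the links of the vertices which are not in a set `U`; there are no cliques with more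
  than `m + 2` elements in `U`, and fewer than `2 ^ (m + 2)` cliques with `m + 2` elements -/
  | even (b : Bool) (m : ℕ) (G : SimpleGraph V) (S U : Finset V) :
      (∀ T : Finset V, T ⊆ U → G.IsClique (T : Set V) → T.card ≤ m + 2) → (cliques G (m + 2) U).card < 2 ^ (m + 2) →
      (∀ x ∈ S, x ∉ U → RedT true (2 * m + 1) G (nb G S x)) → RedT b (2 * m + 2) G S
  /-- odd type: a vertex `v` whose non-neighbours span a tree, and a condition on the links of the edges of this
  tree -/
  | tree (m : ℕ) (G : SimpleGraph V) (S : Finset V) (v : V) : v ∈ S → SpansTree G (mn G S v) →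
      (∀ a ∈ mn G S v, ∀ b ∈ mn G S v, G.Adj a b → RedT false (2 * m + 1) G (nb G (nb G S a) b)) →
      RedT false (2 * m + 3) G S
  /-- odd type: an edge `st` in no induced 4-cycle, a condition on its link, and on the sphere obtained by its
  contraction -/
  | split (m : ℕ) (G : SimpleGraph V) (S : Finset V) (s t : V) : s ∈ S → t ∈ S → G.Adj s t → NoSqF G S s t →
      RedT false (2 * m + 1) G (nb G (nb G S s) t) → RedT false (2 * m + 3) (con G s t) (S.erase t) →
      RedT false (2 * m + 3) G S
  /-- odd type, full subcomplexes: a condition on the sphere and on the links of the vertices -/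
  | full (m : ℕ) (G : SimpleGraph V) (S : Finset V) : RedT false (2 * m + 1) G S →
      (∀ x ∈ S, RedT true (2 * m) G (nb G S x)) → RedT true (2 * m + 1) G S
  /-- connected sum: the sphere on `A ∪ B` is cut by the full subcomplex on `A ∩ B`, which is a homology sphere of
  dimension one less, and a condition on the two spheres which arise if one of the parts is replaced by a cone -/
  | sum (b : Bool) (n : ℕ) (G : SimpleGraph V) (A B : Finset V) (p q : V) : p ∈ B → p ∉ A → q ∈ A → q ∉ B →
      (∀ x ∈ A, x ∉ B → ∀ y ∈ B, y ∉ A → ¬ G.Adj x y) → HS G n (A ∩ B) →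
      RedT b (n + 1) (coneAt G (A ∩ B) p) (insert p A) → RedT b (n + 1) (coneAt G (A ∩ B) q) (insert q B) →
      RedT b (n + 1) G (A ∪ B)

end Pool.Agent.W5h14.TW
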