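import Pool.Agent.W5h14.TW.Def
import Pool.Agent.W5h83.TV2.EvenU

/-!
# Few cliques of the largest size: vanishing in the top degree
-/

set_option autoImplicit false

namespace Pool.Agent.W5h14.TW

open Finset Classical
open Pool.Agent.W5h14.TV
open Pool.Agent.W907.SG Pool.Agent.W907.SM Pool.Agent.W5h83.FS

/-- a family of `k`-cliques without free faces, in a graph without larger cliques, has at least `2^k` members -/
theorem cross_bound {V : Type} [DecidableEq V] (G : SimpleGraph V) : ∀ (k : ℕ) (F : Finset (Finset V)), F.Nonempty →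
    (∀ S ∈ F, S.card = k) → (∀ S ∈ F, G.IsClique (S : Set V)) →
    (∀ S ∈ F, ∀ x ∈ S, ∃ y, y ∉ S ∧ insert y (S.erase x) ∈ F ∧ ¬ G.Adj x y) → 2 ^ k ≤ F.card := by
  intro k
  induction k with
  | zero =>
    intro F hF _ _ _
    simpa using hF.card_pos
  | succ k ih =>
    intro F hF h1 h2 h3
    have key : ∀ x, (F.filter fun S => x ∈ S).Nonempty → 2 ^ k ≤ (F.filter fun S => x ∈ S).card := by
      intro x hx
      have h4 : ((F.filter fun S => x ∈ S).image fun S => S.erase x).card = (F.filter fun S => x ∈ S).card := by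
        refine card_image_of_injOn ?_
        intro S hS T hT hST
        have hS' := (mem_filter.1 (mem_coe.1 hS)).2
        have hT' := (mem_filter.1 (mem_coe.1 hT)).2
        have : insert x (S.erase x) = insert x (T.erase x) := by
          simp only at hST
          rw [hST]
        rwa [insert_erase hS', insert_erase hT'] at this
      rw [← h4]
      refine ih _ (hx.image _) ?_ ?_ ?_
      · intro T hT
        obtain ⟨S, hS, rfl⟩ := mem_image.1 hT
        obtain ⟨hS1, hS2⟩ := mem_filter.1 hS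
        rw [card_erase_of_mem hS2, h1 S hS1]
        rfl
      · intro T hT
        obtain ⟨S, hS, rfl⟩ := mem_image.1 hT
        exact (h2 S (mem_filter.1 hS).1).subset (coe_subset.2 (erase_subset _ _))
      · intro T hT z hz
        obtain ⟨S, hS, rfl⟩ := mem_image.1 hT
        obtain ⟨hS1, hS2⟩ := mem_filter.1 hS
        obtain ⟨hzx, hzS⟩ := mem_erase.1 hz
        obtain ⟨y, hy1, hy2, hy3⟩ := h3 S hS1 z hzS
        have hyx : y ≠ x := fun e => hy1 (e ▸ hS2)
        refine ⟨y, fun h => hy1 (mem_of_mem_erase h), ?_, hy3⟩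
        refine mem_image.2 ⟨insert y (S.erase z), mem_filter.2 ⟨hy2, mem_insert_of_mem (mem_erase.2 ⟨hzx.symm, hS2⟩)⟩,
          ?_⟩
        ext u
        simp only [mem_erase, mem_insert]
        constructor
        · rintro ⟨h5, h6 | ⟨h6, h7⟩⟩
          · exact Or.inl h6
          · exact Or.inr ⟨h6, h5, h7⟩
        · rintro (h6 | ⟨h6, h5, h7⟩)
          · exact ⟨by rw [h6]; exact hyx, Or.inl h6⟩
          · exact ⟨h5, Or.inr ⟨h6, h7⟩⟩
    obtain ⟨S, hS⟩ := hF
    obtain ⟨x, hx⟩ := card_pos.1 (by rw [h1 S hS]; omega : 0 < S.card)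
    obtain ⟨y, hy1, hy2, hy3⟩ := h3 S hS x hx
    have h5 := key x ⟨S, mem_filter.2 ⟨hS, hx⟩⟩
    have h6 := key y ⟨_, mem_filter.2 ⟨hy2, mem_insert_self _ _⟩⟩
    have hd : Disjoint (F.filter fun S => x ∈ S) (F.filter fun S => y ∈ S) := by
      rw [disjoint_left]
      intro T hT1 hT2
      obtain ⟨h7, h8⟩ := mem_filter.1 hT1
      obtain ⟨_, h9⟩ := mem_filter.1 hT2
      exact hy3 (h2 T h7 h8 h9 fun e => hy1 (e ▸ hx))
    have h7 : ((F.filter fun S => x ∈ S) ∪ (F.filter fun S => y ∈ S)).card ≤ F.card :=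
      card_le_card (union_subset (filter_subset _ _) (filter_subset _ _))
    rw [card_union_of_disjoint hd] at h7
    rw [pow_succ]
    omega

/-- the support of a nonzero harmonic chain in the top degree -/
theorem top_aux {V : Type} [Fintype V] [LinearOrder V] {G : SimpleGraph V} {k : ℕ} {c : W G → Finset V → ℝ}
    (hc : IsHarm G k c) (hne : c ≠ 0) (h1 : ∀ T : Finset V, G.IsClique (T : Set V) → T.card ≤ k) :
    ∃ F : Finset (Finset V), (∀ T ∈ F, G.IsClique (T : Set V) ∧ T.card = k) ∧ 2 ^ k ≤ F.card := by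
  have hF1 : ∀ T ∈ (univ.filter fun T : Finset V => ∃ w, c w T ≠ 0), G.IsClique (T : Set V) ∧ T.card = k := by
    intro T hT
    obtain ⟨w, hw⟩ := (mem_filter.1 hT).2
    by_contra h3
    exact hw (hc.supp w T h3)
  refine ⟨univ.filter fun T : Finset V => ∃ w, c w T ≠ 0, hF1, ?_⟩
  refine cross_bound G k _ ?_ (fun T hT => (hF1 T hT).2) (fun T hT => (hF1 T hT).1) ?_
  · by_contra h3
    apply hne
    funext w T
    by_contra h4
    exact h3 ⟨T, mem_filter.2 ⟨mem_univ T, w, h4⟩⟩
  · intro S hS x hx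
    obtain ⟨w, hw⟩ := (mem_filter.1 hS).2
    have h4 := hc.cycle w (S.erase x)
    have h5 : ∃ y ∈ (S.erase x)ᶜ.erase x, c w (insert y (S.erase x)) ≠ 0 := by
      by_contra h6
      push Not at h6
      rw [← add_sum_erase _ _ (show x ∈ (S.erase x)ᶜ from by simp)] at h4
      rw [sum_eq_zero fun y hy => by rw [h6 y hy, mul_zero], add_zero, insert_erase hx] at h4
      have h7 : (sg x (S.erase x) : ℝ) ≠ 0 := by
        unfold sg
        push_cast
        exact pow_ne_zero _ (by norm_num)
      exact hw ((mul_eq_zero.1 h4).resolve_left h7)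
    obtain ⟨y, hy, hcy⟩ := h5
    obtain ⟨hyx, hyc⟩ := mem_erase.1 hy
    have hyS : y ∉ S := fun h => (mem_compl.1 hyc) (mem_erase.2 ⟨hyx, h⟩)
    have hyF : insert y (S.erase x) ∈ (univ.filter fun T : Finset V => ∃ w, c w T ≠ 0) :=
      mem_filter.2 ⟨mem_univ _, w, hcy⟩
    refine ⟨y, hyS, hyF, fun hadj => ?_⟩
    have h8 : G.IsClique ((insert y S : Finset V) : Set V) := by
      have h9 := (hF1 _ hyF).1
      have h10 := (hF1 _ hS).1
      intro a ha b hb hab
      rw [mem_coe, mem_insert] at ha hb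
      have hA : ∀ a ∈ S, a ≠ y → G.Adj y a := by
        intro a ha hay
        by_cases hax : a = x
        · rw [hax]; exact hadj.symm
        · exact h9 (by simp) (by simp [hax, ha]) (Ne.symm hay)
      rcases ha with rfl | ha <;> rcases hb with rfl | hb
      · exact absurd rfl hab
      · exact hA b hb hab.symm
      · exact (hA a ha hab).symm
      · exact h10 ha hb hab
    have h11 := h1 _ h8
    rw [card_insert_of_notMem hyS, (hF1 _ hS).2] at h11
    omega

/-- vanishing in the top degree if there are fewer than `2^k` cliques of the largest size -/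
theorem lv_few_top {V : Type} {G : SimpleGraph V} {A : Finset V} {k : ℕ}
    (h1 : ∀ T : Finset V, T ⊆ A → G.IsClique (T : Set V) → T.card ≤ k)
    (h2 : (cliques G k A).card < 2 ^ k) : LV (G.induce (A : Set V)) k := by
  intro _ _ c hc
  by_contra hne
  let e : ↥(A : Set V) ↪ V := ⟨Subtype.val, Subtype.val_injective⟩
  have hcl : ∀ T : Finset ↥(A : Set V), (G.induce (A : Set V)).IsClique (T : Set ↥(A : Set V)) →
      G.IsClique ((T.map e : Finset V) : Set V) := by
    intro T hT a ha b hb hab
    rw [mem_coe, mem_map] at ha hb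
    obtain ⟨x, hx, rfl⟩ := ha
    obtain ⟨y, hy, rfl⟩ := hb
    exact hT hx hy fun e => hab (by rw [e])
  have hsub : ∀ T : Finset ↥(A : Set V), T.map e ⊆ A := by
    intro T a ha
    rw [mem_map] at ha
    obtain ⟨x, _, rfl⟩ := ha
    exact x.2
  obtain ⟨F, hF1, hF2⟩ := top_aux hc hne (by
    intro T hT
    have h11 := h1 _ (hsub T) (hcl _ hT)
    rwa [card_map] at h11)
  have h4 : F.card ≤ (cliques G k A).card := by
    rw [← card_map ⟨fun T : Finset ↥(A : Set V) => T.map e, Finset.map_injective e⟩]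
    refine card_le_card fun T hT => ?_
    rw [mem_map] at hT
    obtain ⟨T', hT', rfl⟩ := hT
    refine mem_filter.2 ⟨mem_powersetCard.2 ⟨hsub T', ?_⟩, hcl T' (hF1 T' hT').1⟩
    exact (card_map e).trans (hF1 T' hT').2
  omega

/-- even type, from the links of the vertices outside a set with few cliques -/
theorem lv_evenFew {V : Type} {G : SimpleGraph V} [Finite V] {S U : Finset V} {k : ℕ}
    (hU : ∀ T : Finset V, T ⊆ U → G.IsClique (T : Set V) → T.card ≤ k + 1)
    (hU2 : (cliques G (k + 1) U).card < 2 ^ (k + 1))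
    (h1 : ∀ x ∈ S, x ∉ U → ∀ A ⊆ nb G S x, ∀ i, k ≤ i → LV (G.induce (A : Set V)) i) :
    ∀ A ⊆ S, ∀ i, k + 1 ≤ i → LV (G.induce (A : Set V)) i := by
  intro A
  induction A using Finset.strongInduction with
  | _ A ihA =>
    intro hA i hi
    by_cases h2 : A ⊆ U
    · rcases Nat.lt_or_ge (k + 1) i with h3 | h3
      · exact Pool.Agent.W5h83.TV2.lv_clq fun T hT hc => lt_of_le_of_lt (hU T (hT.trans h2) hc) h3
      · obtain rfl : i = k + 1 := le_antisymm h3 hi
        refine lv_few_top (fun T hT hc => hU T (hT.trans h2) hc) (lt_of_le_of_lt (card_le_card ?_) hU2)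
        exact filter_subset_filter _ (powersetCard_mono h2)
    · obtain ⟨v, hv, hvU⟩ := not_subset.1 h2
      exact lv_addF hv i (ihA _ (erase_ssubset hv) ((erase_subset v A).trans hA) i hi)
        fun j hj => h1 v (hA hv) hvU _ (nb_mono hA v) j (by omega)

end Pool.Agent.W5h14.TW
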