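import Pool.Agent.W5h14.TW.Main
import Pool.Agent.W5h14.TV.SubG
import Pool.Agent.TH652.Above

/-!
# All flag subcomplexes of a reducible flag sphere
-/

set_option autoImplicit false

namespace Pool.Agent.W5h14.TW

open Finset Classical
open Pool.Agent.W5h14.TV
open Pool.Agent.W907.SG Pool.Agent.W907.SM Pool.Agent.W5h83.FS
open Pool.Agent.TH652.Above (HSph lv_set lv_univ singer_of_above P P_emb P_sub)
open Pool.Agent.W907.SM.Clo (Lk mem_Lk esub_some_some)

/-- The links of all simplices of the flag complex of `G`, a sphere of dimension `n - 1`, are reducible. -/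
def RedTL {V : Type} [Fintype V] [LinearOrder V] (n : ℕ) (G : SimpleGraph V) : Prop :=
  ∀ (T : Finset V) (k : ℕ), G.IsClique (T : Set V) → T.card + k = n → RedT true k G (lkF G T)

variable {V : Type} [Fintype V] [LinearOrder V] {G : SimpleGraph V}

theorem P_redTL {n : ℕ} (hS : HSph n G) (hR : RedTL n G) : P n G := by
  refine ⟨inferInstance, fun T hT A hA i hi => ?_⟩
  have hk : T.card ≤ n := Pool.Agent.R703.CW.card_le_of_hsph hS T hT
  have hf : Fintype ↥A := Fintype.ofFinite _
  have h1 := lv_redT (hR T (n - T.card) hT (by omega)) (HS.of_hsph_lk hS _ T hT (by omega)) A.toFinset (by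
    intro x hx
    rw [Set.mem_toFinset] at hx
    rw [mem_lkF]
    exact fun u hu => (hA hx u hu).symm) (by simp) i (by omega)
  exact lv_set (by rw [Set.coe_toFinset]) h1

/-- **All flag subcomplexes.** -/
theorem redTL_sub {n : ℕ} (hS : HSph n G) (hR : RedTL n G) {H : SimpleGraph V} (hle : H ≤ G) (A : Set V) (i : ℕ)
    (hi : n < 2 * i) : LV (H.induce A) i := by
  have h1 : P n H := P_le hle (P_redTL hS hR)
  refine h1.2 ∅ (by simp) A ?_ i (by simpa using hi)
  intro a _ t ht
  exact absurd ht (notMem_empty t)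

theorem redTL_five {n : ℕ} (hn : n ≤ 5) (hR : RedT true n G univ) : RedTL n G := by
  intro T k _ hk
  rcases T.eq_empty_or_nonempty with rfl | hT
  · rw [card_empty] at hk
    obtain rfl : k = n := by omega
    rwa [lkF_empty]
  · have := card_pos.2 hT
    exact RedT.low _ _ _ _ (by omega)

theorem redTL_crit {n : ℕ}
    (hc : ∀ (T : Finset V) (m : ℕ), G.IsClique (T : Set V) → T.card + (2 * m + 5) = n →
      2 * (lkF G T).card ≤ 5 * (2 * m + 5) + 2 ∨ ∃ v ∈ lkF G T, SpansTree G (mn G (lkF G T) v)) :
    RedTL n G := fun T k hT hk => redT_of_red (red_of_crit hc k T true hT hk)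

theorem redTL_univ {n : ℕ} (h : RedTL n G) : RedT true n G univ := by
  have h1 := h ∅ n (by simp) (by simp)
  rwa [lkF_empty] at h1

end Pool.Agent.W5h14.TW
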